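import Mathlib

namespace Pool.Agent.Results.MP_4671c3_co.LogRank

open Finset

/-- A partial latin square: triples (row, column, symbol), any two coordinates determine the
third. -/
def IsPLS (P : Finset (ℕ × ℕ × ℕ)) : Prop :=
  ∀ t ∈ P, ∀ u ∈ P, ((t.1 = u.1 ∧ t.2.1 = u.2.1) ∨ (t.1 = u.1 ∧ t.2.2 = u.2.2) ∨
    (t.2.1 = u.2.1 ∧ t.2.2 = u.2.2)) → t = u

/-- A latin bitrade. -/
def IsBitrade (W B : Finset (ℕ × ℕ × ℕ)) : Prop :=
  IsPLS W ∧ IsPLS B ∧ W.Nonempty ∧ B.Nonempty ∧ Disjoint W B ∧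
    (∀ r c, (∃ s, (r, c, s) ∈ W) ↔ ∃ s, (r, c, s) ∈ B) ∧
    (∀ r s, (∃ c, (r, c, s) ∈ W) ↔ ∃ c, (r, c, s) ∈ B) ∧
    (∀ c s, (∃ r, (r, c, s) ∈ W) ↔ ∃ r, (r, c, s) ∈ B)

/-- `P` embeds in the abelian group `G`: maps injective on the rows, columns and symbols of `P`
with `α r + β c = γ s` on `P`. -/
def Embeds (P : Finset (ℕ × ℕ × ℕ)) (G : Type) [AddCommGroup G] : Prop :=
  ∃ α β γ : ℕ → G, Set.InjOn α {r | ∃ c s, (r, c, s) ∈ P} ∧
    Set.InjOn β {c | ∃ r s, (r, c, s) ∈ P} ∧ Set.InjOn γ {s | ∃ r c, (r, c, s) ∈ P} ∧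
    ∀ t ∈ P, α t.1 + β t.2.1 = γ t.2.2

/-- Both mates embed in some abelian group. -/
def BothEmbed (W B : Finset (ℕ × ℕ × ℕ)) : Prop :=
  ∃ (G : Type) (_ : AddCommGroup G), Embeds W G ∧ Embeds B G

/-- Both mates embed in an abelian group generated by `k` elements. -/
def BothEmbedGen (W B : Finset (ℕ × ℕ × ℕ)) (k : ℕ) : Prop :=
  ∃ (G : Type) (_ : AddCommGroup G) (S : Finset G),
    S.card = k ∧ AddSubgroup.closure (S : Set G) = ⊤ ∧ Embeds W G ∧ Embeds B G

/-- `ρ(W, B)`: the least rank of an abelian group in which both mates embed. -/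
noncomputable def rho (W B : Finset (ℕ × ℕ × ℕ)) : ℕ := sInf {k | BothEmbedGen W B k}

theorem half {G : Type} [AddCommGroup G] (D : Finset G) (hD : ∀ d ∈ D, d ≠ 0) :
    ∃ χ : G →+ AddCircle (1 : ℚ), ∃ Z ⊆ D, 2 * Z.card ≤ D.card ∧ ∀ d ∈ D, χ d = 0 → d ∈ Z := by
  classical
  have h : ∀ d : D, ∃ χ : G →+ AddCircle (1 : ℚ), χ d ≠ 0 := fun d =>
    CharacterModule.exists_character_apply_ne_zero_of_ne_zero (hD d d.2)
  choose ψ hψ using h
  let χ : (D → Bool) → G →+ AddCircle (1 : ℚ) := fun ε => ∑ e : D, if ε e then ψ e else 0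
  have hZ : ∀ d : D, 2 * (univ.filter fun ε => χ ε d = 0).card ≤ Fintype.card (D → Bool) := by
    intro d
    have h1 := Finset.card_filter_add_card_filter_not (s := (univ : Finset (D → Bool)))
      (fun ε => χ ε d = 0)
    have h2 : (univ.filter fun ε => χ ε d = 0).card
        ≤ (univ.filter fun ε => ¬ χ ε d = 0).card := by
      refine Finset.card_le_card_of_injOn (fun ε => Function.update ε d (!ε d)) ?_ ?_
      · intro ε hε
        simp only [Finset.coe_filter, Finset.mem_univ, true_and, Set.mem_ofPred_eq] at hε ⊢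
        simp only [χ] at hε ⊢
        rw [← Finset.add_sum_erase _ _ (Finset.mem_univ d)] at hε ⊢
        rw [Finset.sum_congr rfl (g := fun e => if ε e then ψ e else 0) fun e he => by
          rw [Function.update_of_ne (Finset.ne_of_mem_erase he)], Function.update_self]
        intro h0
        apply hψ d
        cases hd : ε d
        · simp only [hd, AddMonoidHom.add_apply, Bool.false_eq_true, if_false, Bool.not_false,
            if_true, AddMonoidHom.zero_apply, zero_add] at hε h0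
          rwa [hε, add_zero] at h0
        · simp only [hd, AddMonoidHom.add_apply, Bool.false_eq_true, if_false, Bool.not_true,
            if_true, AddMonoidHom.zero_apply, zero_add] at hε h0
          rwa [h0, add_zero] at hε
      · intro ε _ ε' _ h
        funext e
        have := congrFun h e
        by_cases he : e = d
        · subst he; simpa using this
        · simpa [Function.update_of_ne he] using this
    rw [Finset.card_univ] at h1
    omega
  have hsum : ∑ ε : D → Bool, 2 * (univ.filter fun d : D => χ ε d = 0).card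
      ≤ ∑ _ε : D → Bool, D.card := by
    simp only [Finset.card_filter, Finset.mul_sum]
    rw [Finset.sum_comm]
    simp only [← Finset.mul_sum, ← Finset.card_filter]
    rw [Finset.mul_sum]
    refine le_trans (Finset.sum_le_sum fun d _ => hZ d) ?_
    simp [mul_comm]
  obtain ⟨ε, -, hε⟩ := Finset.exists_le_of_sum_le Finset.univ_nonempty hsum
  refine ⟨χ ε, (univ.filter fun d : D => χ ε d = 0).map (Function.Embedding.subtype _), ?_, ?_, ?_⟩
  · intro x hx
    obtain ⟨d, -, rfl⟩ := Finset.mem_map.mp hx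
    exact d.2
  · rwa [Finset.card_map]
  · intro d hd h0
    exact Finset.mem_map.mpr ⟨⟨d, hd⟩, by simpa using h0, rfl⟩

theorem sep {G : Type} [AddCommGroup G] (k : ℕ) : ∀ D : Finset G, (∀ d ∈ D, d ≠ 0) →
    D.card < 2 ^ k → ∃ χ : Fin k → G →+ AddCircle (1 : ℚ), ∀ d ∈ D, ∃ i, χ i d ≠ 0 := by
  induction k with
  | zero =>
    intro D _ h
    have : D = ∅ := Finset.card_eq_zero.mp (by omega)
    subst this
    exact ⟨Fin.elim0, by simp⟩
  | succ k ih =>
    intro D hD h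
    obtain ⟨χ0, Z, hZ, hc, hz⟩ := half D hD
    obtain ⟨χ, hχ⟩ := ih Z (fun d hd => hD d (hZ hd)) (by rw [pow_succ] at h; omega)
    refine ⟨Fin.cons χ0 χ, fun d hd => ?_⟩
    by_cases h0 : χ0 d = 0
    · obtain ⟨i, hi⟩ := hχ d (hz d hd h0)
      exact ⟨i.succ, hi⟩
    · exact ⟨0, h0⟩

theorem circle_cyclic (H : AddSubgroup (AddCircle (1 : ℚ))) [Finite H] : IsAddCyclic H := by
  classical
  have := Fintype.ofFinite H
  apply isAddCyclic_of_card_nsmul_eq_zero_le
  intro k hk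
  have h1 := AddCircle.card_torsion_le_of_isSMulRegular (1 : ℚ) k hk.ne'
    (.of_right_eq_zero_of_smul fun _ => by simp [hk.ne'])
  have h2 : (((univ.filter fun a : H => k • a = 0).map (Function.Embedding.subtype _) :
      Finset (AddCircle (1 : ℚ))) : Set (AddCircle (1 : ℚ))) ⊆ {x | k • x = 0} := by
    intro x hx
    simp only [Finset.coe_map, Set.mem_image, Finset.mem_coe, Finset.mem_filter] at hx
    obtain ⟨a, ⟨_, ha⟩, rfl⟩ := hx
    have := congrArg Subtype.val ha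
    simpa using this
  have h3 := (Set.encard_le_encard h2).trans h1
  rw [Set.encard_coe_eq_coe_finsetCard, Finset.card_map] at h3
  exact_mod_cast h3

theorem torsion (x : AddCircle (1 : ℚ)) : ∃ n : ℕ, 0 < n ∧ n • x = 0 := by
  obtain ⟨q, rfl⟩ := QuotientAddGroup.mk_surjective x
  refine ⟨q.den, q.den_pos, ?_⟩
  rw [← QuotientAddGroup.mk_nsmul, QuotientAddGroup.eq_zero_iff]
  exact ⟨q.num, by simp [mul_comm]⟩

theorem model {G : Type} [AddCommGroup G] (T : Finset G) (k : ℕ) (hk : T.card * T.card < 2 ^ k) :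
    ∃ (G' : Type) (_ : AddCommGroup G') (S : Finset G') (π : G → G'), S.card ≤ k ∧
      AddSubgroup.closure (S : Set G') = ⊤ ∧ Set.InjOn π T ∧
      ∀ a ∈ T, ∀ b ∈ T, a + b ∈ T → π a + π b = π (a + b) := by
  classical
  obtain ⟨χ, hχ⟩ := sep k (((T ×ˢ T).image fun p => p.1 - p.2).erase 0)
    (fun d hd => Finset.ne_of_mem_erase hd)
    (lt_of_le_of_lt (Finset.card_erase_le.trans (Finset.card_image_le.trans
      (by rw [Finset.card_product]))) hk)
  choose o ho1 ho2 using torsion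
  let M := ∏ g ∈ T, ∏ i, o (χ i g)
  have hM : 0 < M := Finset.prod_pos fun g _ => Finset.prod_pos fun i _ => ho1 _
  let H : AddSubgroup (AddCircle (1 : ℚ)) := (nsmulAddMonoidHom M).ker
  have hH : ∀ g ∈ T, ∀ i, χ i g ∈ H := by
    intro g hg i
    obtain ⟨c, hc⟩ : o (χ i g) ∣ M :=
      (Finset.dvd_prod_of_mem (fun i => o (χ i g)) (Finset.mem_univ i)).trans
        (Finset.dvd_prod_of_mem (fun g => ∏ i, o (χ i g)) hg)
    show M • χ i g = 0
    rw [hc, mul_comm, mul_smul, ho2, smul_zero]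
  have hfin : Finite H := (AddCircle.finite_torsion (1 : ℚ) hM).to_subtype
  obtain ⟨g, hg⟩ := (circle_cyclic H).exists_generator
  refine ⟨Fin k → H, inferInstance, univ.image fun i => Pi.single i g,
    fun a i => if h : χ i a ∈ H then ⟨χ i a, h⟩ else 0, Finset.card_image_le.trans (by simp),
    ?_, ?_, ?_⟩
  · rw [eq_top_iff]
    intro x _
    rw [← Finset.univ_sum_single x]
    refine AddSubgroup.sum_mem _ fun i _ => ?_
    obtain ⟨z, hz⟩ := hg (x i)
    have : (Pi.single i (x i) : Fin k → H) = z • Pi.single i g := by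
      rw [← Pi.single_zsmul]; exact congrArg _ hz.symm
    rw [this]
    exact AddSubgroup.zsmul_mem _ (AddSubgroup.subset_closure (by simp)) _
  · intro a ha b hb h
    by_contra hab
    obtain ⟨i, hi⟩ := hχ (a - b) (Finset.mem_erase.mpr ⟨sub_ne_zero.mpr hab,
      Finset.mem_image.mpr ⟨(a, b), Finset.mem_product.mpr ⟨ha, hb⟩, rfl⟩⟩)
    have := congrFun h i
    simp only [dif_pos (hH a ha i), dif_pos (hH b hb i), Subtype.mk.injEq] at this
    exact hi (by rw [map_sub, this, sub_self])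
  · intro a ha b hb hab
    funext i
    simp only [Pi.add_apply, dif_pos (hH a ha i), dif_pos (hH b hb i), dif_pos (hH _ hab i)]
    exact Subtype.ext (map_add (χ i) a b).symm

theorem transfer {G G' : Type} [AddCommGroup G] [AddCommGroup G'] (P : Finset (ℕ × ℕ × ℕ))
    (α β γ : ℕ → G) (h1 : Set.InjOn α {r | ∃ c s, (r, c, s) ∈ P})
    (h2 : Set.InjOn β {c | ∃ r s, (r, c, s) ∈ P}) (h3 : Set.InjOn γ {s | ∃ r c, (r, c, s) ∈ P})
    (h4 : ∀ t ∈ P, α t.1 + β t.2.1 = γ t.2.2) (T : Finset G) (π : G → G') (hπ : Set.InjOn π T)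
    (hadd : ∀ a ∈ T, ∀ b ∈ T, a + b ∈ T → π a + π b = π (a + b))
    (hT : ∀ t ∈ P, α t.1 ∈ T ∧ β t.2.1 ∈ T ∧ γ t.2.2 ∈ T) : Embeds P G' := by
  refine ⟨π ∘ α, π ∘ β, π ∘ γ, hπ.comp h1 ?_, hπ.comp h2 ?_, hπ.comp h3 ?_, fun t ht => ?_⟩
  · rintro r ⟨c, s, h⟩; exact (hT _ h).1
  · rintro c ⟨r, s, h⟩; exact (hT _ h).2.1
  · rintro s ⟨r, c, h⟩; exact (hT _ h).2.2
  · simp only [Function.comp_apply]
    rw [hadd _ (hT t ht).1 _ (hT t ht).2.1 (by rw [h4 t ht]; exact (hT t ht).2.2), h4 t ht]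

theorem bound (W B : Finset (ℕ × ℕ × ℕ)) (h : IsBitrade W B) (he : BothEmbed W B) :
    ∃ k ≤ 2 * Nat.log 2 W.card + 8, BothEmbedGen W B k := by
  classical
  obtain ⟨G, _, ⟨α, β, γ, a1, a2, a3, a4⟩, ⟨α', β', γ', b1, b2, b3, b4⟩⟩ := he
  obtain ⟨-, -, -, -, -, c1, c2, -⟩ := h
  let T : Finset G := W.biUnion fun t =>
    {α t.1, β t.2.1, γ t.2.2, α' t.1, β' t.2.1, γ' t.2.2}
  have hT : T.card ≤ W.card * 6 :=
    Finset.card_biUnion_le_card_mul _ _ _ fun t _ => Finset.card_le_six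
  have hlt := Nat.lt_pow_succ_log_self (b := 2) (by norm_num) W.card
  obtain ⟨G', _, S, π, hS, hcl, hπ, hadd⟩ := model T (2 * Nat.log 2 W.card + 8) (by
    have h1 : T.card < 2 ^ (Nat.log 2 W.card + 4) := by
      rw [pow_succ] at hlt; rw [pow_add]; omega
    calc T.card * T.card < 2 ^ (Nat.log 2 W.card + 4) * 2 ^ (Nat.log 2 W.card + 4) :=
          Nat.mul_lt_mul'' h1 h1
      _ = _ := by rw [← pow_add]; congr 1; ring)
  refine ⟨S.card, hS, G', inferInstance, S, rfl, hcl,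
    transfer W α β γ a1 a2 a3 a4 T π hπ hadd fun t ht => ?_,
    transfer B α' β' γ' b1 b2 b3 b4 T π hπ hadd fun t ht => ?_⟩
  · refine ⟨?_, ?_, ?_⟩ <;> exact Finset.mem_biUnion.mpr ⟨t, ht, by simp⟩
  · obtain ⟨s, hs⟩ := (c1 t.1 t.2.1).mpr ⟨t.2.2, ht⟩
    obtain ⟨c, hc⟩ := (c2 t.1 t.2.2).mpr ⟨t.2.1, ht⟩
    exact ⟨Finset.mem_biUnion.mpr ⟨_, hs, by simp⟩, Finset.mem_biUnion.mpr ⟨_, hs, by simp⟩,
      Finset.mem_biUnion.mpr ⟨_, hc, by simp⟩⟩

theorem result :
    (∀ W B : Finset (ℕ × ℕ × ℕ), IsBitrade W B → BothEmbed W B →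
      BothEmbedGen W B (rho W B) ∧ rho W B ≤ 2 * Nat.log 2 W.card + 8) ∧
    ¬ ∃ (W B : ℕ → Finset (ℕ × ℕ × ℕ)) (c : ℝ), 0 < c ∧
      (∀ n, IsBitrade (W n) (B n) ∧ BothEmbed (W n) (B n)) ∧
      Filter.Tendsto (fun n => (W n).card) Filter.atTop Filter.atTop ∧
      ∀ n, c * (W n).card ≤ rho (W n) (B n) := by
  have main : ∀ W B : Finset (ℕ × ℕ × ℕ), IsBitrade W B → BothEmbed W B →
      BothEmbedGen W B (rho W B) ∧ rho W B ≤ 2 * Nat.log 2 W.card + 8 := by
    intro W B h he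
    obtain ⟨k, hk, hk'⟩ := bound W B h he
    exact ⟨Nat.sInf_mem (s := {k | BothEmbedGen W B k}) ⟨k, hk'⟩,
      (Nat.sInf_le (s := {k | BothEmbedGen W B k}) hk').trans hk⟩
  refine ⟨main, ?_⟩
  rintro ⟨W, B, c, hc, h1, h2, h3⟩
  obtain ⟨K, hK⟩ := exists_nat_gt (1 / c)
  obtain ⟨n, hn⟩ := (Filter.tendsto_atTop.mp h2 (2 ^ (10 * K + 8))).exists
  have h4 := (main _ _ (h1 n).1 (h1 n).2).2
  set L := Nat.log 2 (W n).card with hL
  have h5 : 10 * K + 8 ≤ L := Nat.le_log_of_pow_le (by norm_num) hn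
  have h6 : 2 ^ L ≤ (W n).card := Nat.pow_log_le_self 2 (by
    have := Nat.two_pow_pos (10 * K + 8); omega)
  have h7 : L * L ≤ 2 ^ L := by
    have : ∀ m, (m + 4) * (m + 4) ≤ 2 ^ (m + 4) := by
      intro m
      induction m with
      | zero => norm_num
      | succ m ih => rw [show m + 1 + 4 = m + 4 + 1 by ring, pow_succ]; nlinarith
    have h := this (L - 4)
    rwa [show L - 4 + 4 = L by omega] at h
  have h8 : K * rho (W n) (B n) ≤ (W n).card := by nlinarith
  have h9 : (K : ℝ) * rho (W n) (B n) ≤ (W n).card := by exact_mod_cast h8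
  have h10 : (0 : ℝ) < (W n).card := by
    have := Nat.two_pow_pos L
    exact_mod_cast (by omega : 0 < (W n).card)
  rw [div_lt_iff₀ hc] at hK
  have := h3 n
  have hK0 : (0 : ℝ) ≤ K := Nat.cast_nonneg K
  nlinarith [mul_le_mul_of_nonneg_left this hK0]

end Pool.Agent.Results.MP_4671c3_co.LogRank
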